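import Mathlib

/-! # One-sided bounds and equal means: abstract part -/

set_option autoImplicit false

open Filter Topology MeasureTheory Set

namespace Pool.Agent.N805.GH

/-- tail functions `f j` (antitone, between `0` and `1`, dominated by an integrable function) whose
integrals over `(0, ∞)` tend to `1`, and a continuous limit candidate `g` of integral `1` -/
structure Setup (f : ℕ → ℝ → ℝ) (g D : ℝ → ℝ) : Prop where
  anti : ∀ j, Antitone (f j)
  nonneg : ∀ j s, 0 ≤ f j s
  dom : ∀ j s, 0 < s → f j s ≤ D s
  Dint : IntegrableOn D (Ioi 0)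
  lim : Tendsto (fun j => ∫ s in Ioi 0, f j s) atTop (𝓝 1)
  gcont : ContinuousOn g (Ioi 0)
  gint : IntegrableOn g (Ioi 0)
  gone : ∫ s in Ioi 0, g s = 1

variable {f : ℕ → ℝ → ℝ} {g D : ℝ → ℝ}

lemma Setup.fint (h : Setup f g D) (j : ℕ) : IntegrableOn (f j) (Ioi 0) := by
  refine Integrable.mono' h.Dint (h.anti j).measurable.aestronglyMeasurable ?_
  refine (ae_restrict_iff' measurableSet_Ioi).2 (Eventually.of_forall fun s hs => ?_)
  rw [Real.norm_of_nonneg (h.nonneg j s)]
  exact h.dom j s hs

lemma Setup.gmeas (h : Setup f g D) : AEStronglyMeasurable g (volume.restrict (Ioi 0)) :=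
  h.gint.aestronglyMeasurable

/-- the integral of `|f - g|` in terms of the positive parts -/
lemma Setup.abs_eq (h : Setup f g D) (j : ℕ) :
    ∫ s in Ioi 0, |f j s - g s| = (∫ s in Ioi 0, f j s) - 1 + 2 * ∫ s in Ioi 0, max (g s - f j s) 0 := by
  have h1 : Integrable (fun s => f j s - g s) (volume.restrict (Ioi 0)) := (h.fint j).sub h.gint
  have h2 : Integrable (fun s => max (g s - f j s) 0) (volume.restrict (Ioi 0)) :=
    (h.gint.sub (h.fint j)).pos_part
  rw [← h.gone, ← integral_sub (h.fint j) h.gint, ← integral_const_mul, ← integral_add h1 (h2.const_mul 2)]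
  refine integral_congr_ae (Eventually.of_forall fun s => ?_)
  show |f j s - g s| = (f j s - g s) + 2 * max (g s - f j s) 0
  rcases le_total (g s) (f j s) with h3 | h3
  · rw [max_eq_right (by linarith), abs_of_nonneg (by linarith)]
    ring
  · rw [max_eq_left (by linarith), abs_of_nonpos (by linarith)]
    ring

lemma Setup.abs_eq' (h : Setup f g D) (j : ℕ) :
    ∫ s in Ioi 0, |f j s - g s| = 1 - (∫ s in Ioi 0, f j s) + 2 * ∫ s in Ioi 0, max (f j s - g s) 0 := by
  have h1 : Integrable (fun s => g s - f j s) (volume.restrict (Ioi 0)) := h.gint.sub (h.fint j)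
  have h2 : Integrable (fun s => max (f j s - g s) 0) (volume.restrict (Ioi 0)) :=
    ((h.fint j).sub h.gint).pos_part
  rw [← h.gone, ← integral_sub h.gint (h.fint j), ← integral_const_mul, ← integral_add h1 (h2.const_mul 2)]
  refine integral_congr_ae (Eventually.of_forall fun s => ?_)
  show |f j s - g s| = (g s - f j s) + 2 * max (f j s - g s) 0
  rcases le_total (g s) (f j s) with h3 | h3
  · rw [max_eq_left (by linarith), abs_of_nonneg (by linarith)]
    ring
  · rw [max_eq_right (by linarith), abs_of_nonpos (by linarith)]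
    ring

/-- the lower bound for the tails suffices, in the mean -/
lemma Setup.low (h : Setup f g D) (hl : ∀ s : ℝ, 0 < s → ∀ ε : ℝ, 0 < ε → ∀ᶠ j in atTop, g s - ε ≤ f j s) :
    Tendsto (fun j => ∫ s in Ioi 0, |f j s - g s|) atTop (𝓝 0) := by
  have h1 : Tendsto (fun j => ∫ s in Ioi 0, max (g s - f j s) 0) atTop (𝓝 (∫ s in Ioi (0 : ℝ), (0 : ℝ))) := by
    refine tendsto_integral_of_dominated_convergence (fun s => |g s|) (fun j => ?_) h.gint.abs
      (fun j => ?_) ?_
    · exact (h.gint.sub (h.fint j)).pos_part.aestronglyMeasurable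
    · refine Eventually.of_forall fun s => ?_
      rw [Real.norm_of_nonneg (le_max_right _ _)]
      refine max_le ?_ (abs_nonneg _)
      have := h.nonneg j s
      have := le_abs_self (g s)
      linarith
    · refine (ae_restrict_iff' measurableSet_Ioi).2 (Eventually.of_forall fun s hs => ?_)
      rw [Metric.tendsto_atTop]
      intro ε hε
      obtain ⟨n, hn⟩ := eventually_atTop.1 (hl s hs (ε / 2) (by positivity))
      refine ⟨n, fun j hj => ?_⟩
      rw [dist_zero_right, Real.norm_of_nonneg (le_max_right _ _)]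
      refine max_lt ?_ hε
      have := hn j hj
      linarith
  rw [integral_zero] at h1
  have h2 := (h.lim.sub_const 1).add (h1.const_mul 2)
  simp only [sub_self, mul_zero, add_zero] at h2
  exact h2.congr fun j => (h.abs_eq j).symm

/-- the upper bound for the tails suffices, in the mean -/
lemma Setup.upp (h : Setup f g D) (hl : ∀ s : ℝ, 0 < s → ∀ ε : ℝ, 0 < ε → ∀ᶠ j in atTop, f j s ≤ g s + ε) :
    Tendsto (fun j => ∫ s in Ioi 0, |f j s - g s|) atTop (𝓝 0) := by
  have h1 : Tendsto (fun j => ∫ s in Ioi 0, max (f j s - g s) 0) atTop (𝓝 (∫ s in Ioi (0 : ℝ), (0 : ℝ))) := by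
    refine tendsto_integral_of_dominated_convergence (fun s => |D s| + |g s|) (fun j => ?_)
      (h.Dint.abs.add h.gint.abs) (fun j => ?_) ?_
    · exact ((h.fint j).sub h.gint).pos_part.aestronglyMeasurable
    · refine (ae_restrict_iff' measurableSet_Ioi).2 (Eventually.of_forall fun s hs => ?_)
      rw [Real.norm_of_nonneg (le_max_right _ _)]
      refine max_le ?_ (by positivity)
      have := h.dom j s hs
      have := neg_abs_le (g s)
      have := le_abs_self (D s)
      linarith
    · refine (ae_restrict_iff' measurableSet_Ioi).2 (Eventually.of_forall fun s hs => ?_)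
      rw [Metric.tendsto_atTop]
      intro ε hε
      obtain ⟨n, hn⟩ := eventually_atTop.1 (hl s hs (ε / 2) (by positivity))
      refine ⟨n, fun j hj => ?_⟩
      rw [dist_zero_right, Real.norm_of_nonneg (le_max_right _ _)]
      refine max_lt ?_ hε
      have := hn j hj
      linarith
  rw [integral_zero] at h1
  have h2 := (h.lim.const_sub 1).add (h1.const_mul 2)
  simp only [sub_self, mul_zero, add_zero] at h2
  exact h2.congr fun j => (h.abs_eq' j).symm

/-- convergence in the mean implies convergence -/
lemma Setup.ptw (h : Setup f g D) (hl : Tendsto (fun j => ∫ s in Ioi 0, |f j s - g s|) atTop (𝓝 0))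
    {s : ℝ} (hs : 0 < s) : Tendsto (fun j => f j s) atTop (𝓝 (g s)) := by
  rw [Metric.tendsto_atTop]
  intro ε hε
  have hc := (h.gcont.continuousAt (Ioi_mem_nhds hs))
  obtain ⟨δ, hδ, hg⟩ := Metric.continuousAt_iff.1 hc (ε / 2) (by positivity)
  obtain ⟨η, hη⟩ : ∃ η : ℝ, η = min (δ / 2) (s / 2) := ⟨_, rfl⟩
  have hη0 : 0 < η := by rw [hη]; exact lt_min (by positivity) (by positivity)
  have hηδ : η < δ := by rw [hη]; exact (min_le_left _ _).trans_lt (by linarith)
  have hηs : η < s := by rw [hη]; exact (min_le_right _ _).trans_lt (by linarith)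
  obtain ⟨n, hn⟩ := eventually_atTop.1 (hl.eventually (gt_mem_nhds (show 0 < ε / 2 * η by positivity)))
  refine ⟨n, fun j hj => ?_⟩
  have h1 := hn j hj
  have hai : IntegrableOn (fun x => |f j x - g x|) (Ioi 0) := ((h.fint j).sub h.gint).abs
  rw [Real.dist_eq]
  by_contra hcon
  push Not at hcon
  have key : ∀ u v : ℝ, 0 < u → u < v → v - u = η → (∀ x ∈ Ioc u v, ε / 2 ≤ |f j x - g x|) → False := by
    intro u v hu huv huv' hx
    have h2 : ∫ x in Ioc u v, (ε / 2 : ℝ) ≤ ∫ x in Ioc u v, |f j x - g x| := by
      refine setIntegral_mono_on ?_ ?_ measurableSet_Ioc fun x hx' => hx x hx'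
      · exact integrableOn_const (by simp) (by simp)
      · exact hai.mono_set fun x hx' => hu.trans hx'.1
    have h3 : ∫ x in Ioc u v, |f j x - g x| ≤ ∫ x in Ioi 0, |f j x - g x| :=
      setIntegral_mono_set hai (Eventually.of_forall fun x => abs_nonneg _)
        (HasSubset.Subset.eventuallyLE fun x hx' => hu.trans hx'.1)
    rw [setIntegral_const, Real.volume_real_Ioc_of_le huv.le, huv', smul_eq_mul] at h2
    linarith
  rcases le_or_gt (g s) (f j s) with hle | hlt
  · rw [abs_of_nonneg (by linarith)] at hcon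
    refine key (s - η) s (by linarith) (by linarith) (by ring) fun x hx => ?_
    have h2 := h.anti j hx.2
    have h3 := hg (x := x) (by
      rw [Real.dist_eq, abs_sub_lt_iff]
      constructor <;> linarith [hx.1, hx.2])
    rw [Real.dist_eq, abs_sub_lt_iff] at h3
    have := le_abs_self (f j x - g x)
    linarith [h3.1]
  · rw [abs_of_neg (by linarith)] at hcon
    refine key s (s + η) hs (by linarith) (by ring) fun x hx => ?_
    have h2 := h.anti j hx.1.le
    have h3 := hg (x := x) (by
      rw [Real.dist_eq, abs_sub_lt_iff]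
      constructor <;> linarith [hx.1, hx.2])
    rw [Real.dist_eq, abs_sub_lt_iff] at h3
    have := neg_abs_le (f j x - g x)
    linarith [h3.2]

end Pool.Agent.N805.GH
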