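import Mathlib

/-! # The Gaudin distribution from its Painlevé representation -/

set_option autoImplicit false

open Filter Topology MeasureTheory Set Asymptotics

namespace Pool.Agent.N805.GH

/-- the function `σ` of the Painlevé representation -/
structure IsSigma (σ : ℝ → ℝ) : Prop where
  diff : ∀ t : ℝ, 0 < t → DifferentiableAt ℝ σ t
  diff2 : ∀ t : ℝ, 0 < t → DifferentiableAt ℝ (deriv σ) t
  ode : ∀ t : ℝ, 0 < t → (t * deriv (deriv σ) t) ^ 2 +
    4 * (t * deriv σ t - σ t) * (t * deriv σ t - σ t + deriv σ t ^ 2) = 0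
  zero : IsEquivalent (𝓝[>] 0) σ (fun t => -(t / Real.pi) - (t / Real.pi) ^ 2)
  top : IsEquivalent atTop σ (fun t => -(t / 2) ^ 2 - 1 / 4)

/-- `E(s) = exp (∫_0^{π s} σ(t)/t dt)` -/
noncomputable def E (σ : ℝ → ℝ) (s : ℝ) : ℝ := Real.exp (∫ t in (0 : ℝ)..Real.pi * s, σ t / t)

/-- minus the derivative of `E` -/
noncomputable def g (σ : ℝ → ℝ) (s : ℝ) : ℝ := -(E σ s * (σ (Real.pi * s) / s))

variable {σ : ℝ → ℝ}

lemma IsSigma.cont (h : IsSigma σ) : ContinuousOn (fun t => σ t / t) (Ioi 0) := by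
  intro t ht
  exact ((h.diff t ht).continuousAt.div continuousAt_id (ne_of_gt ht)).continuousWithinAt

lemma IsSigma.lim_zero (h : IsSigma σ) : Tendsto (fun t => σ t / t) (𝓝[>] 0) (𝓝 (-(1 / Real.pi))) := by
  have hpi := Real.pi_pos
  have h1 : IsEquivalent (𝓝[>] 0) (fun t => σ t / t) (fun t => (-(t / Real.pi) - (t / Real.pi) ^ 2) / t) :=
    h.zero.div IsEquivalent.refl
  refine (h1.tendsto_nhds_iff).2 ?_
  have h2 : Tendsto (fun t : ℝ => -(1 / Real.pi) - t / Real.pi ^ 2) (𝓝[>] 0) (𝓝 (-(1 / Real.pi) - 0 / Real.pi ^ 2)) := by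
    apply Tendsto.mono_left _ nhdsWithin_le_nhds
    exact (continuous_const.sub (continuous_id.div_const _)).tendsto 0
  rw [zero_div, sub_zero] at h2
  refine h2.congr' ?_
  filter_upwards [self_mem_nhdsWithin] with t ht
  have : t ≠ 0 := ne_of_gt ht
  field_simp

lemma bdd_int {f : ℝ → ℝ} {a b M : ℝ} (hf : ContinuousOn f (Ioc a b)) (hM : ∀ x ∈ Ioc a b, |f x| ≤ M) :
    IntegrableOn f (Ioc a b) := by
  refine Integrable.mono' (g := fun _ => M) (integrable_const _) (hf.aestronglyMeasurable measurableSet_Ioc) ?_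
  exact (ae_restrict_iff' measurableSet_Ioc).2 (Eventually.of_forall fun x hx => by
    rw [Real.norm_eq_abs]
    exact hM x hx)

lemma IsSigma.int (h : IsSigma σ) {t : ℝ} (ht : 0 ≤ t) : IntervalIntegrable (fun t => σ t / t) volume 0 t := by
  rw [intervalIntegrable_iff_integrableOn_Ioc_of_le ht]
  obtain ⟨u, hu, hub⟩ : ∃ u > 0, ∀ x ∈ Ioo 0 u, |σ x / x - -(1 / Real.pi)| < 1 := by
    have h1 := h.lim_zero.eventually (Metric.ball_mem_nhds _ one_pos)
    rw [eventually_nhdsWithin_iff, Metric.eventually_nhds_iff] at h1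
    obtain ⟨u, hu, h1⟩ := h1
    refine ⟨u, hu, fun x hx => ?_⟩
    have := h1 (y := x) (by rw [dist_zero_right, Real.norm_of_nonneg hx.1.le]; exact hx.2) hx.1
    rw [Real.dist_eq] at this
    exact this
  rcases le_or_gt t (u / 2) with htu | htu
  · refine bdd_int (M := 1 + 1 / Real.pi) (h.cont.mono fun x hx => hx.1) fun x hx => ?_
    have h2 := hub x ⟨hx.1, by linarith [hx.2]⟩
    have h3 : 0 < 1 / Real.pi := by positivity
    rw [abs_lt] at h2
    rw [abs_le]
    constructor <;> linarith [h2.1, h2.2]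
  · rw [← Ioc_union_Ioc_eq_Ioc (show (0 : ℝ) ≤ u / 2 by positivity) htu.le]
    refine IntegrableOn.union ?_ ?_
    · refine bdd_int (M := 1 + 1 / Real.pi) (h.cont.mono fun x hx => hx.1) fun x hx => ?_
      have h2 := hub x ⟨hx.1, by linarith [hx.2]⟩
      have h3 : 0 < 1 / Real.pi := by positivity
      rw [abs_lt] at h2
      rw [abs_le]
      constructor <;> linarith [h2.1, h2.2]
    · have : IntegrableOn (fun t => σ t / t) (Icc (u / 2) t) :=
        (h.cont.mono fun x hx => lt_of_lt_of_le (by positivity) hx.1).integrableOn_Icc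
      exact this.mono_set Ioc_subset_Icc_self

lemma IsSigma.hasDeriv_int (h : IsSigma σ) {t : ℝ} (ht : 0 < t) :
    HasDerivAt (fun x => ∫ u in (0 : ℝ)..x, σ u / u) (σ t / t) t := by
  refine intervalIntegral.integral_hasDerivAt_right (h.int ht.le) ?_ ?_
  · exact ContinuousOn.stronglyMeasurableAtFilter isOpen_Ioi h.cont t ht
  · exact h.cont.continuousAt (Ioi_mem_nhds ht)

lemma IsSigma.hasDeriv_E (h : IsSigma σ) {s : ℝ} (hs : 0 < s) :
    HasDerivAt (E σ) (E σ s * (σ (Real.pi * s) / s)) s := by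
  have hpi := Real.pi_pos
  have h1 := h.hasDeriv_int (t := Real.pi * s) (by positivity)
  have h2 : HasDerivAt (fun x : ℝ => Real.pi * x) Real.pi s := by
    simpa using (hasDerivAt_id s).const_mul Real.pi
  have h3 := (h1.comp s h2).exp
  have e : Real.exp (∫ t in (0 : ℝ)..Real.pi * s, σ t / t) * (σ (Real.pi * s) / (Real.pi * s) * Real.pi) =
      E σ s * (σ (Real.pi * s) / s) := by
    unfold E
    field_simp
  rw [← e]
  exact h3

lemma IsSigma.E_cont (h : IsSigma σ) : ContinuousWithinAt (E σ) (Ici 0) 0 := by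
  have hpi := Real.pi_pos
  have h1 : ContinuousOn (fun x => ∫ t in (0 : ℝ)..x, σ t / t) (Icc 0 (Real.pi * 1)) := by
    have := intervalIntegral.continuousOn_primitive_interval' (h.int (show (0 : ℝ) ≤ Real.pi * 1 by positivity))
      left_mem_uIcc
    rwa [uIcc_of_le (by positivity)] at this
  have h2 : ContinuousWithinAt (fun x => ∫ t in (0 : ℝ)..x, σ t / t) (Icc 0 (Real.pi * 1)) (Real.pi * 0) := by
    rw [mul_zero]
    exact h1 0 ⟨le_rfl, by positivity⟩
  have h3 : ContinuousWithinAt (fun s : ℝ => ∫ t in (0 : ℝ)..Real.pi * s, σ t / t) (Icc 0 1) 0 := by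
    refine ContinuousWithinAt.comp (t := Icc 0 (Real.pi * 1)) (g := fun x => ∫ t in (0 : ℝ)..x, σ t / t)
      (f := fun s : ℝ => Real.pi * s) h2 (by fun_prop) ?_
    intro x hx
    exact ⟨mul_nonneg hpi.le hx.1, mul_le_mul_of_nonneg_left hx.2 hpi.le⟩
  have h4 : ContinuousWithinAt (E σ) (Icc 0 1) 0 := Real.continuous_exp.continuousAt.comp_continuousWithinAt h3
  exact h4.mono_of_mem_nhdsWithin (Icc_mem_nhdsGE one_pos)

lemma E_zero : E σ 0 = 1 := by
  unfold E
  rw [mul_zero, intervalIntegral.integral_same, Real.exp_zero]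

lemma E_pos (s : ℝ) : 0 < E σ s := Real.exp_pos _

/-- bounds at infinity -/
lemma IsSigma.sig_top (h : IsSigma σ) : ∃ t0 : ℝ, 1 ≤ t0 ∧ ∀ t : ℝ, t0 ≤ t → -t ^ 2 ≤ σ t ∧ σ t ≤ -(t ^ 2 / 8) := by
  have h1 := h.top.isLittleO.bound (c := 1 / 2) (by norm_num)
  obtain ⟨t0, ht0⟩ := eventually_atTop.1 h1
  refine ⟨max t0 1, le_max_right _ _, fun t ht => ?_⟩
  have h2 := ht0 t ((le_max_left _ _).trans ht)
  have ht1 : 1 ≤ t := (le_max_right _ _).trans ht
  simp only [Pi.sub_apply, Real.norm_eq_abs] at h2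
  have h3 : |-(t / 2) ^ 2 - 1 / 4| = (t / 2) ^ 2 + 1 / 4 := by
    rw [abs_of_nonpos (by nlinarith [sq_nonneg (t / 2)])]
    ring
  rw [h3, abs_le] at h2
  constructor <;> nlinarith [h2.1, h2.2]

lemma IsSigma.E_bound (h : IsSigma σ) : ∃ C s0 : ℝ, 0 < C ∧ 1 ≤ s0 ∧ ∀ s : ℝ, s0 ≤ s →
    E σ s ≤ C * Real.exp (-(s ^ 2 / 16)) ∧ σ (Real.pi * s) < 0 ∧ |σ (Real.pi * s) / s| ≤ 16 * s := by
  obtain ⟨t0, ht0, hb⟩ := h.sig_top
  have hpi := Real.pi_gt_three
  have hpi2 := Real.pi_lt_d2
  refine ⟨Real.exp ((∫ u in (0 : ℝ)..t0, σ u / u) + t0 ^ 2 / 16), t0, Real.exp_pos _, ht0, fun s hs => ?_⟩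
  have hs1 : 1 ≤ s := ht0.trans hs
  have hts : t0 ≤ Real.pi * s := by nlinarith
  obtain ⟨b1, b2⟩ := hb _ hts
  have hpis : 0 < Real.pi * s := by positivity
  refine ⟨?_, by nlinarith [sq_nonneg (Real.pi * s), mul_pos hpis hpis], ?_⟩
  · unfold E
    rw [← Real.exp_add]
    apply Real.exp_le_exp.2
    have hint := h.int (show 0 ≤ t0 by linarith)
    have hint2 : IntervalIntegrable (fun t => σ t / t) volume t0 (Real.pi * s) :=
      ((h.cont.mono fun x hx => by
        rw [uIcc_of_le hts] at hx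
        exact lt_of_lt_of_le (by linarith) hx.1)).intervalIntegrable
    rw [← intervalIntegral.integral_add_adjacent_intervals hint hint2]
    have h2 : ∫ t in t0..Real.pi * s, σ t / t ≤ ∫ t in t0..Real.pi * s, -(t / 8) := by
      refine intervalIntegral.integral_mono_on hts hint2 (Continuous.intervalIntegrable (by fun_prop) _ _) fun t ht => ?_
      have ht0' : 0 < t := lt_of_lt_of_le (by linarith) ht.1
      rw [div_le_iff₀ ht0']
      have := (hb t ht.1).2
      nlinarith
    have h3 : ∫ t in t0..Real.pi * s, -(t / 8) = t0 ^ 2 / 16 - (Real.pi * s) ^ 2 / 16 := by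
      rw [intervalIntegral.integral_neg, intervalIntegral.integral_div, integral_id]
      ring
    have h4 : s ^ 2 ≤ (Real.pi * s) ^ 2 := by
      have h5 : 1 ≤ Real.pi ^ 2 := by nlinarith
      rw [mul_pow]
      nlinarith [sq_nonneg s]
    linarith
  · rw [abs_div, abs_of_pos (by linarith : 0 < s), div_le_iff₀ (by linarith)]
    have h5 : |σ (Real.pi * s)| ≤ (Real.pi * s) ^ 2 := by
      rw [abs_le]
      constructor
      · linarith
      · nlinarith [sq_nonneg (Real.pi * s)]
    refine h5.trans ?_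
    rw [mul_pow]
    have : Real.pi ^ 2 ≤ 16 := by nlinarith
    nlinarith [sq_nonneg s]

lemma tend_aux : Tendsto (fun s : ℝ => s * Real.exp (-(s ^ 2 / 16))) atTop (𝓝 0) := by
  have h1 : Tendsto (fun s : ℝ => s * Real.exp (-(s / 16))) atTop (𝓝 0) := by
    have h2 := Real.tendsto_pow_mul_exp_neg_atTop_nhds_zero 1
    have h3 : Tendsto (fun s : ℝ => s / 16) atTop atTop := tendsto_id.atTop_div_const (by norm_num)
    have h4 := (h2.comp h3).const_mul 16
    simp only [Function.comp_apply, pow_one, mul_zero] at h4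
    refine h4.congr fun s => ?_
    ring
  refine squeeze_zero' ?_ ?_ h1
  · filter_upwards [eventually_ge_atTop 0] with s hs
    positivity
  · filter_upwards [eventually_ge_atTop 1] with s hs
    apply mul_le_mul_of_nonneg_left _ (by linarith)
    apply Real.exp_le_exp.2
    nlinarith

lemma IsSigma.E_top (h : IsSigma σ) : Tendsto (E σ) atTop (𝓝 0) := by
  obtain ⟨C, s0, hC, hs0, hb⟩ := h.E_bound
  have h1 := tend_aux.const_mul C
  rw [mul_zero] at h1
  refine squeeze_zero' (Eventually.of_forall fun s => (E_pos s).le) ?_ h1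
  filter_upwards [eventually_ge_atTop s0] with s hs
  refine ((hb s hs).1).trans ?_
  have : Real.exp (-(s ^ 2 / 16)) ≤ s * Real.exp (-(s ^ 2 / 16)) := by
    have h2 := Real.exp_pos (-(s ^ 2 / 16))
    nlinarith [hs0.trans hs]
  exact mul_le_mul_of_nonneg_left this hC.le

lemma IsSigma.g_top (h : IsSigma σ) : Tendsto (g σ) atTop (𝓝 0) := by
  obtain ⟨C, s0, hC, hs0, hb⟩ := h.E_bound
  rw [tendsto_zero_iff_norm_tendsto_zero]
  have h1 := tend_aux.const_mul (16 * C)
  rw [mul_zero] at h1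
  refine squeeze_zero' (Eventually.of_forall fun s => norm_nonneg _) ?_ h1
  filter_upwards [eventually_ge_atTop s0] with s hs
  obtain ⟨b1, _, b3⟩ := hb s hs
  unfold g
  rw [norm_neg, norm_mul, Real.norm_of_nonneg (E_pos s).le, Real.norm_eq_abs]
  calc E σ s * |σ (Real.pi * s) / s| ≤ (C * Real.exp (-(s ^ 2 / 16))) * (16 * s) := by
        gcongr
    _ = _ := by ring

lemma IsSigma.g_cont (h : IsSigma σ) : ContinuousOn (g σ) (Ioi 0) := by
  have hpi := Real.pi_pos
  intro s hs
  have hs' : 0 < s := hs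
  have h1 : ContinuousAt (E σ) s := (h.hasDeriv_E hs').continuousAt
  have h2 : ContinuousAt (fun s => σ (Real.pi * s)) s :=
    ContinuousAt.comp (f := fun s : ℝ => Real.pi * s) (h.diff _ (by positivity)).continuousAt (by fun_prop)
  exact ((h1.mul (h2.div continuousAt_id hs'.ne')).neg).continuousWithinAt

lemma IsSigma.g_int (h : IsSigma σ) : IntegrableOn (g σ) (Ioi 0) := by
  obtain ⟨C, s0, hC, hs0, hb⟩ := h.E_bound
  have hpi := Real.pi_pos
  rw [← Ioc_union_Ioi_eq_Ioi (show (0 : ℝ) ≤ s0 by linarith)]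
  refine IntegrableOn.union ?_ ?_
  · -- near zero the function has a limit
    have h1 : Tendsto (fun s => σ (Real.pi * s) / s) (𝓝[>] 0) (𝓝 (-(1 / Real.pi) * Real.pi)) := by
      have h2 : Tendsto (fun s : ℝ => Real.pi * s) (𝓝[>] 0) (𝓝[>] 0) := by
        refine tendsto_nhdsWithin_of_tendsto_nhds_of_eventually_within _ ?_ ?_
        · have : Tendsto (fun s : ℝ => Real.pi * s) (𝓝 0) (𝓝 (Real.pi * 0)) :=
            (continuous_const.mul continuous_id).tendsto 0
          rw [mul_zero] at this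
          exact this.mono_left nhdsWithin_le_nhds
        · filter_upwards [self_mem_nhdsWithin] with s hs
          have : 0 < s := hs
          show 0 < Real.pi * s
          positivity
      refine ((h.lim_zero.comp h2).mul_const Real.pi).congr' ?_
      filter_upwards [self_mem_nhdsWithin] with s hs
      have : s ≠ 0 := ne_of_gt hs
      show σ (Real.pi * s) / (Real.pi * s) * Real.pi = _
      field_simp
    have hE : Tendsto (E σ) (𝓝[>] 0) (𝓝 (E σ 0)) :=
      h.E_cont.tendsto.mono_left (nhdsWithin_mono _ Ioi_subset_Ici_self)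
    have h3 := (hE.mul h1).neg
    have h4 : ContinuousOn (fun s => if s = 0 then -(E σ 0 * (-(1 / Real.pi) * Real.pi)) else g σ s)
        (Icc 0 s0) := by
      intro s hs
      rcases eq_or_lt_of_le hs.1 with h0 | h0
      · subst h0
        rw [ContinuousWithinAt]
        simp only [if_true]
        rw [← Ioc_insert_left hs.2, nhdsWithin_insert, tendsto_sup]
        constructor
        · have := tendsto_pure_nhds (fun s => if s = 0 then -(E σ 0 * (-(1 / Real.pi) * Real.pi)) else g σ s) (0 : ℝ)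
          simpa using this
        · refine (h3.mono_left (nhdsWithin_mono _ fun x hx => hx.1)).congr' ?_
          filter_upwards [self_mem_nhdsWithin] with x hx
          have : x ≠ 0 := ne_of_gt hx.1
          rw [if_neg this]
          rfl
      · have : ContinuousAt (g σ) s := h.g_cont.continuousAt (Ioi_mem_nhds h0)
        refine (this.congr ?_).continuousWithinAt
        filter_upwards [Ioi_mem_nhds h0] with x hx
        have hx0 : x ≠ 0 := ne_of_gt hx
        rw [if_neg hx0]
    have h4' : IntegrableOn (fun s => if s = 0 then -(E σ 0 * (-(1 / Real.pi) * Real.pi)) else g σ s)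
        (Icc 0 s0) volume := h4.integrableOn_Icc
    have h5 := h4'.mono_set (Ioc_subset_Icc_self (a := (0 : ℝ)) (b := s0))
    refine h5.congr_fun (fun x hx => ?_) measurableSet_Ioc
    have : x ≠ 0 := ne_of_gt hx.1
    simp only [if_neg this]
  · have h1 : Tendsto (fun s => -E σ s) atTop (𝓝 (-0)) := h.E_top.neg
    refine integrableOn_Ioi_deriv_of_nonneg' (g := fun s => -E σ s) (l := -0) (fun s hs => ?_) (fun s hs => ?_) h1
    · exact (h.hasDeriv_E (lt_of_lt_of_le (by linarith) hs)).neg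
    · have hs' : s0 ≤ s := le_of_lt hs
      have hs0' : 0 < s := by linarith
      obtain ⟨_, b2, _⟩ := hb s hs'
      unfold g
      rw [Left.nonneg_neg_iff]
      apply mul_nonpos_of_nonneg_of_nonpos (E_pos s).le
      exact div_nonpos_of_nonpos_of_nonneg b2.le hs0'.le

lemma IsSigma.g_one (h : IsSigma σ) : ∫ s in Ioi 0, g σ s = 1 := by
  have h1 := integral_Ioi_of_hasDerivAt_of_tendsto (f := fun s => -E σ s) (f' := g σ) (a := 0) (m := -0)
    h.E_cont.neg (fun s hs => (h.hasDeriv_E hs).neg) h.g_int h.E_top.neg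
  rw [h1, E_zero]
  norm_num

lemma IsSigma.g_zero (h : IsSigma σ) : Tendsto (g σ) (𝓝[>] 0) (𝓝 1) := by
  have hpi := Real.pi_pos
  have h1 : Tendsto (fun s => σ (Real.pi * s) / s) (𝓝[>] 0) (𝓝 (-(1 / Real.pi) * Real.pi)) := by
    have h2 : Tendsto (fun s : ℝ => Real.pi * s) (𝓝[>] 0) (𝓝[>] 0) := by
      refine tendsto_nhdsWithin_of_tendsto_nhds_of_eventually_within _ ?_ ?_
      · have : Tendsto (fun s : ℝ => Real.pi * s) (𝓝 0) (𝓝 (Real.pi * 0)) :=
          (continuous_const.mul continuous_id).tendsto 0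
        rw [mul_zero] at this
        exact this.mono_left nhdsWithin_le_nhds
      · filter_upwards [self_mem_nhdsWithin] with s hs
        have : 0 < s := hs
        show 0 < Real.pi * s
        positivity
    refine ((h.lim_zero.comp h2).mul_const Real.pi).congr' ?_
    filter_upwards [self_mem_nhdsWithin] with s hs
    have : s ≠ 0 := ne_of_gt hs
    show σ (Real.pi * s) / (Real.pi * s) * Real.pi = _
    field_simp
  have hE : Tendsto (E σ) (𝓝[>] 0) (𝓝 (E σ 0)) :=
    h.E_cont.tendsto.mono_left (nhdsWithin_mono _ Ioi_subset_Ici_self)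
  have h3 := (hE.mul h1).neg
  rw [E_zero, one_mul, neg_mul, neg_neg, one_div, inv_mul_cancel₀ hpi.ne'] at h3
  exact h3

lemma IsSigma.deriv_E (h : IsSigma σ) {s : ℝ} (hs : 0 < s) : deriv (E σ) s = -g σ s := by
  rw [(h.hasDeriv_E hs).deriv]
  unfold g
  ring

/-- the second derivative of `E` -/
noncomputable def dd (σ : ℝ → ℝ) (s : ℝ) : ℝ :=
  E σ s * (σ (Real.pi * s) / s) * (σ (Real.pi * s) / s) +
    E σ s * ((deriv σ (Real.pi * s) * Real.pi * s - σ (Real.pi * s) * 1) / s ^ 2)

lemma IsSigma.hasDeriv_g (h : IsSigma σ) {s : ℝ} (hs : 0 < s) : HasDerivAt (fun s => -g σ s) (dd σ s) s := by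
  have hpi := Real.pi_pos
  have h1 := h.hasDeriv_E hs
  have h2 : HasDerivAt (fun x : ℝ => Real.pi * x) Real.pi s := by
    simpa using (hasDerivAt_id s).const_mul Real.pi
  have h3 : HasDerivAt (fun s => σ (Real.pi * s)) (deriv σ (Real.pi * s) * Real.pi) s :=
    (h.diff (Real.pi * s) (by positivity)).hasDerivAt.comp s h2
  have h4 := h1.mul (h3.div (hasDerivAt_id s) hs.ne')
  refine h4.congr_of_eventuallyEq (Eventually.of_forall fun x => ?_)
  simp [g]

lemma IsSigma.dd_cont (h : IsSigma σ) : ContinuousOn (dd σ) (Ioi 0) := by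
  have hpi := Real.pi_pos
  intro s hs
  have hs' : 0 < s := hs
  have h1 : ContinuousAt (E σ) s := (h.hasDeriv_E hs').continuousAt
  have h2 : ContinuousAt (fun s => σ (Real.pi * s)) s :=
    ContinuousAt.comp (f := fun s : ℝ => Real.pi * s) (h.diff _ (by positivity)).continuousAt (by fun_prop)
  have h3 : ContinuousAt (fun s => deriv σ (Real.pi * s)) s :=
    ContinuousAt.comp (f := fun s : ℝ => Real.pi * s) (h.diff2 _ (by positivity)).continuousAt (by fun_prop)
  have h4 : ContinuousAt (fun s => σ (Real.pi * s) / s) s := h2.div continuousAt_id hs'.ne'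
  refine ContinuousAt.continuousWithinAt ?_
  unfold dd
  refine ((h1.mul h4).mul h4).add (h1.mul (ContinuousAt.div ?_ (continuousAt_id.pow 2) (by
    show s ^ 2 ≠ 0
    positivity)))
  exact ((h3.mul continuousAt_const).mul continuousAt_id).sub (h2.mul continuousAt_const)

lemma IsSigma.deriv2 (h : IsSigma σ) {s : ℝ} (hs : 0 < s) : deriv (deriv (E σ)) s = dd σ s := by
  have h1 : deriv (E σ) =ᶠ[𝓝 s] fun s => -g σ s := by
    filter_upwards [Ioi_mem_nhds hs] with x hx
    exact h.deriv_E hx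
  rw [h1.deriv_eq]
  exact (h.hasDeriv_g hs).deriv

/-- the integral of the density -/
lemma IsSigma.int_p (h : IsSigma σ) {a b : ℝ} (ha : 0 < a) (hab : a ≤ b) :
    ∫ s in a..b, deriv (deriv (E σ)) s = g σ a - g σ b := by
  have h1 : ∫ s in a..b, deriv (deriv (E σ)) s = ∫ s in a..b, dd σ s := by
    refine intervalIntegral.integral_congr fun s hs => ?_
    rw [uIcc_of_le hab] at hs
    exact h.deriv2 (lt_of_lt_of_le ha hs.1)
  rw [h1, intervalIntegral.integral_eq_sub_of_hasDerivAt (f := fun s => -g σ s) (f' := dd σ) ?_ ?_]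
  · ring
  · intro s hs
    rw [uIcc_of_le hab] at hs
    exact h.hasDeriv_g (lt_of_lt_of_le ha hs.1)
  · have h2 : ContinuousOn (dd σ) (uIcc a b) := h.dd_cont.mono fun s hs => by
      rw [uIcc_of_le hab] at hs
      exact lt_of_lt_of_le ha hs.1
    exact h2.intervalIntegrable

end Pool.Agent.N805.GH
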