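import Pool.Agent.N805.GH.A
import Pool.Agent.N805.GH.B
import Pool.Agent.N805.GM.A
import Pool.Agent.R846.NC.Zeta
import Pool.Agent.R846.NC.Abs2

/-! # The empirical distribution function of the gaps -/

set_option autoImplicit false

open Filter Topology MeasureTheory Set

namespace Pool.Agent.N805.GH

open SP (RHs)
open Pool.Agent.R320.CL (dl dl_le)

/-- the proportion of the gaps larger than `s` -/
noncomputable def fN (N : ℕ) (s : ℝ) : ℝ := (N : ℝ)⁻¹ * ∑ n ∈ Finset.Icc 1 N, if s < dl n then (1 : ℝ) else 0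

lemma fN_anti (N : ℕ) : Antitone (fN N) := by
  intro s t hst
  unfold fN
  apply mul_le_mul_of_nonneg_left _ (by positivity)
  refine Finset.sum_le_sum fun n _ => ?_
  split_ifs with h1 h2 h2
  · exact le_rfl
  · exact absurd (lt_of_le_of_lt hst h1) h2
  · exact zero_le_one
  · exact le_rfl

lemma fN_nonneg (N : ℕ) (s : ℝ) : 0 ≤ fN N s := by
  unfold fN
  apply mul_nonneg (by positivity)
  exact Finset.sum_nonneg fun n _ => by split_ifs <;> norm_num

lemma fN_le_one (N : ℕ) (s : ℝ) : fN N s ≤ 1 := by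
  unfold fN
  rcases Nat.eq_zero_or_pos N with h | h
  · subst h; simp
  have hN : (0 : ℝ) < N := by exact_mod_cast h
  rw [inv_mul_le_iff₀ hN, mul_one]
  calc _ ≤ ∑ n ∈ Finset.Icc 1 N, (1 : ℝ) := Finset.sum_le_sum fun n _ => by split_ifs <;> norm_num
    _ = N := by simp

lemma fN_eq (N : ℕ) (s : ℝ) : fN N s = (N : ℝ)⁻¹ * ({n : ℕ | 1 ≤ n ∧ n ≤ N ∧ s < dl n}.ncard : ℝ) := by
  unfold fN
  congr 1
  rw [Finset.sum_boole]
  congr 1
  rw [← ncard_coe_finset]
  congr 1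
  ext n
  simp [and_assoc]

/-- domination -/
lemma fN_dom (hRH : RHs) : ∃ D : ℝ → ℝ, IntegrableOn D (Ioi 0) ∧ (∀ N s, 0 < s → fN N s ≤ D s) ∧
    Tendsto D atTop (𝓝 0) := by
  obtain ⟨c, y0, hc, hy0, h⟩ := LG.gap_uniform hRH
  obtain ⟨M, hM⟩ : ∃ M : ℝ, M = max y0 3 := ⟨_, rfl⟩
  have hM3 : 3 ≤ M := by rw [hM]; exact le_max_right _ _
  have hMy : y0 ≤ M := by rw [hM]; exact le_max_left _ _
  refine ⟨fun s => if s ≤ M then 1 else Real.exp (-c * s), ?_, ?_, ?_⟩
  · rw [← Ioc_union_Ioi_eq_Ioi (show (0 : ℝ) ≤ M by linarith)]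
    refine IntegrableOn.union ?_ ?_
    · have : IntegrableOn (fun _ : ℝ => (1 : ℝ)) (Ioc 0 M) := integrableOn_const (by simp) (by simp)
      refine this.congr_fun (fun s hs => ?_) measurableSet_Ioc
      simp only
      rw [if_pos hs.2]
    · have := integrableOn_exp_mul_Ioi (a := -c) (by linarith) M
      refine this.congr_fun (fun s hs => ?_) measurableSet_Ioi
      simp only
      rw [if_neg (not_le.2 hs)]
  · intro N s hs
    simp only
    split_ifs with h1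
    · exact fN_le_one N s
    · push Not at h1
      rcases Nat.eq_zero_or_pos N with hN0 | hN0
      · subst hN0
        unfold fN
        simp only [Nat.cast_zero, inv_zero, zero_mul]
        exact (Real.exp_pos _).le
      · have hN : (0 : ℝ) < N := by exact_mod_cast hN0
        have h2 := h N hN0 s (by linarith)
        rw [fN_eq, inv_mul_le_iff₀ hN]
        have h3 : ({n : ℕ | 1 ≤ n ∧ n ≤ N ∧ s < dl n}.ncard : ℝ) ≤
            ({n : ℕ | 1 ≤ n ∧ n ≤ N ∧ s ≤ LG.dlt n}.ncard : ℝ) := by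
          have hsub : {n : ℕ | 1 ≤ n ∧ n ≤ N ∧ s < dl n} ⊆ {n : ℕ | 1 ≤ n ∧ n ≤ N ∧ s ≤ LG.dlt n} := by
            rintro n ⟨h1, h2, h3⟩
            refine ⟨h1, h2, ?_⟩
            have h4 := dl_le h1
            have h5 : dl n ≤ LG.dlt n := by
              refine h4.trans (le_of_eq ?_)
              unfold LG.dlt
              ring
            linarith
          exact_mod_cast ncard_le_ncard hsub ((finite_Iic N).subset fun n hn => hn.2.1)
        refine (h3.trans h2).trans ?_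
        apply mul_le_mul_of_nonneg_left _ hN.le
        apply Real.exp_le_exp.2
        have hl : 1 ≤ Real.log s := by
          rw [Real.le_log_iff_exp_le hs]
          linarith [Real.exp_one_lt_d9]
        have : c * s * 1 ≤ c * s * Real.log s := by gcongr
        linarith
  · have h1 : Tendsto (fun s : ℝ => Real.exp (-c * s)) atTop (𝓝 0) := by
      apply Real.tendsto_exp_atBot.comp
      exact tendsto_id.const_mul_atTop_of_neg (by linarith)
    refine h1.congr' ?_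
    filter_upwards [eventually_gt_atTop M] with s hs
    rw [if_neg (not_le.2 hs)]

lemma int_ind (x : ℝ) : ∫ s in Ioi 0, (if s < x then (1 : ℝ) else 0) = max x 0 := by
  have h1 : ∀ s ∈ Ioi (0 : ℝ), (if s < x then (1 : ℝ) else 0) = (Iio x).indicator (fun _ => (1 : ℝ)) s := by
    intro s _
    simp [indicator, mem_Iio]
  rw [setIntegral_congr_fun measurableSet_Ioi h1, integral_indicator measurableSet_Iio,
    Measure.restrict_restrict measurableSet_Iio, inter_comm, Ioi_inter_Iio, integral_const, smul_eq_mul, mul_one,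
    measureReal_restrict_apply MeasurableSet.univ, univ_inter]
  rcases le_total 0 x with h | h
  · rw [Real.volume_real_Ioo_of_le h, max_eq_left h, sub_zero]
  · rw [Ioo_eq_empty (not_lt.2 h), max_eq_right h]
    simp

lemma int_ind_i (x : ℝ) : IntegrableOn (fun s => (if s < x then (1 : ℝ) else 0)) (Ioi 0) := by
  have h1 : IntegrableOn (fun _ : ℝ => (1 : ℝ)) (Ioo 0 x) := integrableOn_const (by simp) (by simp)
  have h2 : IntegrableOn ((Iio x).indicator (fun _ : ℝ => (1 : ℝ))) (Ioi 0) := by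
    rw [IntegrableOn, integrable_indicator_iff measurableSet_Iio, IntegrableOn,
      Measure.restrict_restrict measurableSet_Iio, inter_comm, Ioi_inter_Iio]
    exact h1
  refine h2.congr_fun (fun s _ => ?_) measurableSet_Ioi
  simp [indicator, mem_Iio]

/-- the integral of the tails is the mean of the gaps -/
lemma fN_int (N : ℕ) : ∫ s in Ioi 0, fN N s = (N : ℝ)⁻¹ * ∑ n ∈ Finset.Icc 1 N, max (dl n) 0 := by
  unfold fN
  rw [integral_const_mul, integral_finsetSum _ fun n _ => int_ind_i (dl n)]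
  simp_rw [int_ind]

lemma fN_lim (hRH : RHs) : Tendsto (fun N => ∫ s in Ioi 0, fN N s) atTop (𝓝 1) := by
  obtain ⟨n0, hn0, hnn⟩ := Pool.Agent.R320.JL.dl_nn
  obtain ⟨V, hv⟩ := R846.NC.smallVar hRH
  have hm := R846.NC.mean_zero (R846.NC.logGrowth hRH) hv
  have hdl : ∀ n, Pool.Agent.Y743.LR.dl n = dl n := by
    intro n
    unfold Pool.Agent.Y743.LR.dl Pool.Agent.R320.CL.dl
    ring
  obtain ⟨K, hK⟩ : ∃ K : ℝ, K = ∑ n ∈ Finset.range n0, |dl n| := ⟨_, rfl⟩
  rw [Metric.tendsto_atTop]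
  intro ε hε
  have ev : ∀ᶠ N : ℕ in atTop, K ≤ ε / 3 * N := by
    have := (tendsto_natCast_atTop_atTop (R := ℝ)).const_mul_atTop (show 0 < ε / 3 by positivity)
    exact this.eventually_ge_atTop K
  obtain ⟨N0, hN0⟩ := eventually_atTop.1 ((hm (ε / 3) (by positivity)).and (ev.and (eventually_gt_atTop 0)))
  refine ⟨N0, fun N hN => ?_⟩
  obtain ⟨h1, h2, h3⟩ := hN0 N hN
  have hNr : (0 : ℝ) < N := by exact_mod_cast h3
  have h4 : |∑ n ∈ Finset.Icc 1 N, (max (dl n) 0 - dl n)| ≤ K := by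
    refine (Finset.abs_sum_le_sum_abs _ _).trans ?_
    have h5 : ∀ n ∈ Finset.Icc 1 N, |max (dl n) 0 - dl n| ≤ if n ∈ Finset.range n0 then |dl n| else 0 := by
      intro n _
      split_ifs with h
      · rcases le_total 0 (dl n) with h6 | h6
        · rw [max_eq_left h6, sub_self, abs_zero]
          exact abs_nonneg _
        · rw [max_eq_right h6, zero_sub, abs_neg]
      · rw [Finset.mem_range, not_lt] at h
        rw [max_eq_left (hnn n h), sub_self, abs_zero]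
    refine (Finset.sum_le_sum h5).trans ?_
    rw [← Finset.sum_filter, hK]
    apply Finset.sum_le_sum_of_subset_of_nonneg
    · intro n hn
      exact (Finset.mem_filter.1 hn).2
    · intro n _ _
      exact abs_nonneg _
  have h6 : ∑ n ∈ Finset.Icc 1 N, (Pool.Agent.Y743.LR.dl n - 1) = ∑ n ∈ Finset.Icc 1 N, dl n - N := by
    rw [Finset.sum_sub_distrib]
    simp [hdl]
  rw [h6] at h1
  rw [Finset.sum_sub_distrib] at h4
  rw [fN_int, Real.dist_eq]
  have e : (N : ℝ)⁻¹ * ∑ n ∈ Finset.Icc 1 N, max (dl n) 0 - 1 =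
      (N : ℝ)⁻¹ * ((∑ n ∈ Finset.Icc 1 N, max (dl n) 0 - ∑ n ∈ Finset.Icc 1 N, dl n) +
        (∑ n ∈ Finset.Icc 1 N, dl n - N)) := by
    field_simp
    ring
  rw [e, abs_mul, abs_of_pos (inv_pos.2 hNr), inv_mul_lt_iff₀ hNr]
  refine (abs_add_le _ _).trans_lt ?_
  have : ε / 3 * N + ε / 3 * N < N * ε := by nlinarith
  linarith

lemma setup (hRH : RHs) {σ : ℝ → ℝ} (h : IsSigma σ) {φ : ℕ → ℕ} (hφ : Tendsto φ atTop atTop) :
    ∃ D : ℝ → ℝ, Setup (fun j => fN (φ j)) (g σ) D ∧ Tendsto D atTop (𝓝 0) := by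
  obtain ⟨D, hD1, hD2, hD3⟩ := fN_dom hRH
  exact ⟨D, ⟨fun j => fN_anti _, fun j s => fN_nonneg _ s, fun j s hs => hD2 _ s hs, hD1,
    (fN_lim hRH).comp hφ, h.g_cont, h.g_int, h.g_one⟩, hD3⟩

/-- the proportion of the gaps in `[a, b]` -/
noncomputable def pr (N : ℕ) (a b : ℝ) : ℝ := (1 / N : ℝ) * ({n : ℕ | 1 ≤ n ∧ n ≤ N ∧ a ≤ dl n ∧ dl n ≤ b}.ncard : ℝ)

lemma fin_of (N : ℕ) (P : ℕ → Prop) : {n : ℕ | 1 ≤ n ∧ n ≤ N ∧ P n}.Finite :=
  (finite_Iic N).subset fun n hn => hn.2.1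

lemma pr_le {N : ℕ} {a a' b : ℝ} (ha : a' < a) (hab : a ≤ b) : pr N a b ≤ fN N a' - fN N b := by
  rw [fN_eq, fN_eq, pr, one_div, ← mul_sub]
  apply mul_le_mul_of_nonneg_left _ (by positivity)
  have h1 : {n : ℕ | 1 ≤ n ∧ n ≤ N ∧ a ≤ dl n ∧ dl n ≤ b}.ncard + {n : ℕ | 1 ≤ n ∧ n ≤ N ∧ b < dl n}.ncard ≤
      {n : ℕ | 1 ≤ n ∧ n ≤ N ∧ a' < dl n}.ncard := by
    rw [← ncard_union_eq ?_ (fin_of N _) (fin_of N _)]
    · refine ncard_le_ncard ?_ (fin_of N _)
      rintro n (⟨h1, h2, h3, h4⟩ | ⟨h1, h2, h3⟩)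
      · exact ⟨h1, h2, by linarith⟩
      · exact ⟨h1, h2, by linarith⟩
    · rw [disjoint_left]
      rintro n ⟨_, _, _, h4⟩ ⟨_, _, h3⟩
      linarith
  have : (({n : ℕ | 1 ≤ n ∧ n ≤ N ∧ a ≤ dl n ∧ dl n ≤ b}.ncard : ℕ) : ℝ) +
      (({n : ℕ | 1 ≤ n ∧ n ≤ N ∧ b < dl n}.ncard : ℕ) : ℝ) ≤
      (({n : ℕ | 1 ≤ n ∧ n ≤ N ∧ a' < dl n}.ncard : ℕ) : ℝ) := by exact_mod_cast h1
  linarith

lemma le_pr {N : ℕ} {a b : ℝ} : fN N a - fN N b ≤ pr N a b := by
  rw [fN_eq, fN_eq, pr, one_div, ← mul_sub]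
  apply mul_le_mul_of_nonneg_left _ (by positivity)
  have h1 : {n : ℕ | 1 ≤ n ∧ n ≤ N ∧ a < dl n}.ncard ≤
      {n : ℕ | 1 ≤ n ∧ n ≤ N ∧ a ≤ dl n ∧ dl n ≤ b}.ncard + {n : ℕ | 1 ≤ n ∧ n ≤ N ∧ b < dl n}.ncard := by
    refine le_trans (ncard_le_ncard ?_ ((fin_of N _).union (fin_of N _))) (ncard_union_le _ _)
    rintro n ⟨h1, h2, h3⟩
    rcases le_or_gt (dl n) b with h | h
    · exact Or.inl ⟨h1, h2, h3.le, h⟩
    · exact Or.inr ⟨h1, h2, h⟩
  have : (({n : ℕ | 1 ≤ n ∧ n ≤ N ∧ a < dl n}.ncard : ℕ) : ℝ) ≤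
      (({n : ℕ | 1 ≤ n ∧ n ≤ N ∧ a ≤ dl n ∧ dl n ≤ b}.ncard : ℕ) : ℝ) +
      (({n : ℕ | 1 ≤ n ∧ n ≤ N ∧ b < dl n}.ncard : ℕ) : ℝ) := by exact_mod_cast h1
  linarith

/-- `Q1` along the sequence `φ` -/
def Q (σ : ℝ → ℝ) (φ : ℕ → ℕ) : Prop := ∀ a b : ℝ, 0 < a → a < b →
  Tendsto (fun j => pr (φ j) a b) atTop (𝓝 (∫ s in a..b, deriv (deriv (E σ)) s))

theorem Q_iff (hRH : RHs) {σ : ℝ → ℝ} (h : IsSigma σ) {φ : ℕ → ℕ} (hφ : Tendsto φ atTop atTop) :
    Q σ φ ↔ ∀ s : ℝ, 0 < s → Tendsto (fun j => fN (φ j) s) atTop (𝓝 (g σ s)) := by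
  obtain ⟨D, hs, hD⟩ := setup hRH h hφ
  constructor
  · intro hQ s hs0
    have hc := h.g_cont.continuousAt (Ioi_mem_nhds hs0)
    rw [Metric.tendsto_atTop]
    intro ε hε
    obtain ⟨δ, hδ, hg⟩ := Metric.continuousAt_iff.1 hc (ε / 4) (by positivity)
    obtain ⟨b, hb1, hb2, hb3⟩ := ((hD.eventually (gt_mem_nhds (show (0 : ℝ) < ε / 4 by positivity))).and
      ((Metric.tendsto_nhds.1 h.g_top (ε / 4) (by positivity)).and
      (eventually_gt_atTop (s + δ)))).exists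
    rw [Real.dist_eq, sub_zero, abs_lt] at hb2
    have hs' : s < s + δ / 2 := by linarith
    have q1 := hQ s b hs0 (by linarith)
    have q2 := hQ (s + δ / 2) b (by linarith) (by linarith)
    rw [h.int_p hs0 (by linarith)] at q1
    rw [h.int_p (by linarith) (by linarith)] at q2
    obtain ⟨n, hn⟩ := eventually_atTop.1 ((Metric.tendsto_nhds.1 q1 (ε / 4) (by positivity)).and
      (Metric.tendsto_nhds.1 q2 (ε / 4) (by positivity)))
    refine ⟨n, fun j hj => ?_⟩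
    obtain ⟨h1, h2⟩ := hn j hj
    rw [Real.dist_eq, abs_lt] at h1 h2
    have h3 := le_pr (N := φ j) (a := s) (b := b)
    have h4 := pr_le (N := φ j) (a := s + δ / 2) (a' := s) (b := b) hs' (by linarith)
    have h5 := hs.dom j b (by linarith)
    have h6 := fN_nonneg (φ j) b
    have h7 := hg (x := s + δ / 2) (by rw [Real.dist_eq, add_sub_cancel_left, abs_of_pos (by positivity)]; linarith)
    rw [Real.dist_eq, abs_lt] at h7
    rw [Real.dist_eq, abs_lt]
    constructor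
    · linarith [h1.1, h1.2, h2.1, h2.2, h7.1, h7.2, hb2.1, hb2.2]
    · linarith [h1.1, h1.2, h2.1, h2.2, h7.1, h7.2, hb2.1, hb2.2]
  · intro hf a b ha hab
    rw [h.int_p ha hab.le]
    have hc := h.g_cont.continuousAt (Ioi_mem_nhds ha)
    rw [Metric.tendsto_atTop]
    intro ε hε
    obtain ⟨δ, hδ, hg⟩ := Metric.continuousAt_iff.1 hc (ε / 4) (by positivity)
    obtain ⟨η, hη⟩ : ∃ η : ℝ, η = min (δ / 2) (a / 2) := ⟨_, rfl⟩
    have hη0 : 0 < η := by rw [hη]; exact lt_min (by positivity) (by positivity)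
    have hηδ : η < δ := by rw [hη]; exact (min_le_left _ _).trans_lt (by linarith)
    have hηa : η < a := by rw [hη]; exact (min_le_right _ _).trans_lt (by linarith)
    obtain ⟨n, hn⟩ := eventually_atTop.1 ((Metric.tendsto_nhds.1 (hf a ha) (ε / 4) (by positivity)).and
      ((Metric.tendsto_nhds.1 (hf (a - η) (by linarith)) (ε / 4) (by positivity)).and
      (Metric.tendsto_nhds.1 (hf b (by linarith)) (ε / 4) (by positivity))))
    refine ⟨n, fun j hj => ?_⟩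
    obtain ⟨h1, h2, h3⟩ := hn j hj
    rw [Real.dist_eq, abs_lt] at h1 h2 h3
    have h4 := le_pr (N := φ j) (a := a) (b := b)
    have h5 := pr_le (N := φ j) (a := a) (a' := a - η) (b := b) (by linarith) hab.le
    have h7 := hg (x := a - η) (by
      rw [Real.dist_eq, show a - η - a = -η by ring, abs_neg, abs_of_pos hη0]
      exact hηδ)
    rw [Real.dist_eq, abs_lt] at h7
    rw [Real.dist_eq, abs_lt]
    constructor
    · linarith [h1.1, h1.2, h2.1, h2.2, h3.1, h3.2, h7.1, h7.2]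
    · linarith [h1.1, h1.2, h2.1, h2.2, h3.1, h3.2, h7.1, h7.2]

/-- the lower half for the tails -/
theorem Q_low (hRH : RHs) {σ : ℝ → ℝ} (h : IsSigma σ) {φ : ℕ → ℕ} (hφ : Tendsto φ atTop atTop) :
    Q σ φ ↔ ∀ s : ℝ, 0 < s → ∀ ε : ℝ, 0 < ε → ∀ᶠ j in atTop, g σ s - ε ≤ fN (φ j) s := by
  obtain ⟨D, hs, hD⟩ := setup hRH h hφ
  rw [Q_iff hRH h hφ]
  constructor
  · intro hf s hs0 ε hε
    filter_upwards [(hf s hs0).eventually (lt_mem_nhds (show g σ s - ε < g σ s by linarith))] with j hj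
    exact hj.le
  · intro hl s hs0
    exact hs.ptw (hs.low hl) hs0

/-- the upper half for the tails -/
theorem Q_upp (hRH : RHs) {σ : ℝ → ℝ} (h : IsSigma σ) {φ : ℕ → ℕ} (hφ : Tendsto φ atTop atTop) :
    Q σ φ ↔ ∀ s : ℝ, 0 < s → ∀ ε : ℝ, 0 < ε → ∀ᶠ j in atTop, fN (φ j) s ≤ g σ s + ε := by
  obtain ⟨D, hs, hD⟩ := setup hRH h hφ
  rw [Q_iff hRH h hφ]
  constructor
  · intro hf s hs0 ε hε
    filter_upwards [(hf s hs0).eventually (gt_mem_nhds (show g σ s < g σ s + ε by linarith))] with j hj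
    exact hj.le
  · intro hl s hs0
    exact hs.ptw (hs.upp hl) hs0

/-- convergence in the mean -/
theorem Q_mean (hRH : RHs) {σ : ℝ → ℝ} (h : IsSigma σ) {φ : ℕ → ℕ} (hφ : Tendsto φ atTop atTop) :
    Q σ φ ↔ Tendsto (fun j => ∫ s in Ioi 0, |fN (φ j) s - g σ s|) atTop (𝓝 0) := by
  obtain ⟨D, hs, hD⟩ := setup hRH h hφ
  rw [Q_iff hRH h hφ]
  constructor
  · intro hf
    refine hs.low fun s hs0 ε hε => ?_
    filter_upwards [(hf s hs0).eventually (lt_mem_nhds (show g σ s - ε < g σ s by linarith))] with j hj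
    exact hj.le
  · intro hl s hs0
    exact hs.ptw hl hs0

/-- the two deviations have the same size -/
theorem bal (hRH : RHs) {σ : ℝ → ℝ} (h : IsSigma σ) :
    Tendsto (fun N => (∫ s in Ioi 0, |fN N s - g σ s|) - 2 * ∫ s in Ioi 0, max (g σ s - fN N s) 0) atTop (𝓝 0) ∧
    Tendsto (fun N => (∫ s in Ioi 0, |fN N s - g σ s|) - 2 * ∫ s in Ioi 0, max (fN N s - g σ s) 0) atTop (𝓝 0) := by
  obtain ⟨D, hs, hD⟩ := setup hRH h tendsto_id
  have h1 := fN_lim hRH
  constructor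
  · have h2 := h1.sub_const 1
    rw [sub_self] at h2
    refine h2.congr fun N => ?_
    have := hs.abs_eq N
    simp only [id] at this
    rw [this]
    ring
  · have h2 := h1.const_sub 1
    rw [sub_self] at h2
    refine h2.congr fun N => ?_
    have := hs.abs_eq' N
    simp only [id] at this
    rw [this]
    ring

end Pool.Agent.N805.GH
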